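import Pool.Agent.Lib.MP_67c3d0_lc.Hierarchy

namespace Pool.Agent.Retired.MP_67c3d0_lc.Hierarchy

open Pool.Agent.Lib.MP_67c3d0_lc

/-- Q2: over every supply of at least `n` terminal letters, `OND(P^{-ε}, n)` is a proper
subfamily of `OND(P^{-ε}, n + 1)`, for every `n ≥ 1`. -/
theorem result :
    ∀ n : ℕ, 1 ≤ n → ∀ (T : Type), Nonempty (Fin n ↪ T) → OND T n ⊂ OND T (n + 1) :=
  fun _ hn _ ⟨ι⟩ => OND_ssubset hn ι

end Pool.Agent.Retired.MP_67c3d0_lc.Hierarchy
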